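import Pool.Agent.N103.MU.Final

/-!
# Murre's conjecture (B) for all Chow-Kunneth decompositions: modifications and direct factors

`𝒱` is a class of smooth projective geometrically irreducible varieties over the field `k` closed
under products (for the problem: all of them over `ℂ`), `C` the Chow groups with rational
coefficients (in the form of their formal properties, `IsChowProj`), `H` a Weil cohomology theory
(for the problem: Betti cohomology). `C.comp Γ Δ` is the composition of first `Γ`, then `Δ`.

Let `h(X)` be a direct factor of `h(Y)`, `dim Y = dim X`, for instance by a morphism `f : Y → X` of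
degree `N ≠ 0`, such as a blow-up or a covering. Suppose that the homologically trivial
endomorphisms of the complement are nilpotent, for example that the complement is
finite-dimensional; nothing is assumed on `h(X)`. Then `Y` has a Chow-Kunneth decomposition and all
Chow-Kunneth decompositions of `Y` satisfy Murre's conjecture (B) (one of its two halves,
`F^0 CH^i = CH^i` and `F^(i+1) CH^i = 0`, or both) if and only if the same holds for `X` and for
the complement. If the complement is a sum of Tate motives, for instance for the blow-up of points,
then the conjecture for `X` and for `Y` are equivalent.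

The decompositions of `Y` need not be compatible with `f`. The proof shows that each of them is
conjugate to a compatible one, by a unit of the ring of correspondences acting as the identity on
the cohomology: one lifts the Kunneth components to the complement (polynomials in
`∑ n q π_n q`), compares the two decompositions of the complement, and extends the comparison to an
automorphism of `h(Y)` by an explicit formula (as in Witt's theorem). The vanishing conditions of
(B) are invariant under conjugation by arbitrary units.
-/

open CategoryTheory AlgebraicGeometry

set_option autoImplicit false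

universe u v w

namespace Pool.Agent.Results.MP_d6e134_ag.DirectFactorsAllCK

open Pool.Agent.H914 Pool.Agent.W492.BB Pool.Agent.TH133 Pool.Agent.Y107 Pool.Agent.W550.Corr
  Pool.Agent.N103.MU

/-- **Murre's conjecture (B), for all Chow-Kunneth decompositions, passes between a variety and its
direct factors of the same dimension with nilpotent complement.** -/
theorem result {k : Type u} [Field k] {𝒱 : VarClass k} (C : TheoryData.{u, v, 0} 𝒱 ℚ)
    [IsChowProj C] {K : Type w} [Field K] (H : WeilTheoryData.{u, v, w} C K) [IsWeilProj H]
    (X Y : 𝒱.Obj) :
    (∀ (a : C.A (X.prod Y)) (b : C.A (Y.prod X)), Factor C a b →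
      (NilOff H a b →
        ((HasCK H Y ∧ MurreB0 H Y) ↔ (HasCK H X ∧ MurreB0 H X) ∧
          (AlgComps H (dg C Y - C.comp b a) ∧
            ∀ r, CKOf H (dg C Y - C.comp b a) r → SatB0 C r)) ∧
        ((HasCK H Y ∧ MurreB1 H Y) ↔ (HasCK H X ∧ MurreB1 H X) ∧
          (AlgComps H (dg C Y - C.comp b a) ∧
            ∀ r, CKOf H (dg C Y - C.comp b a) r → SatB1 C r))) ∧
      (TateRest C a b →
        ((HasCK H Y ∧ MurreB0 H Y) ↔ (HasCK H X ∧ MurreB0 H X)) ∧
        ((HasCK H Y ∧ MurreB1 H Y) ↔ (HasCK H X ∧ MurreB1 H X)))) ∧
    -- the case of a morphism of degree `N`
    (∀ (f : Y ⟶ X) (N : ℚ), Y.dim = X.dim → N ≠ 0 → C.push f 1 = N • 1 →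
      Factor C (C.cograph f) (N⁻¹ • C.graph f)) := by
  refine ⟨fun a b h => ⟨fun hnil => murreB_factor h hnil, fun hT => ?_⟩,
    fun f N hd hN hf => factor_of_morphism f hd hN hf⟩
  obtain ⟨h0, h1⟩ := murreB_factor h (nilOff_of_tate (H := H) hT)
  rw [h0, h1]
  exact ⟨⟨fun h' => h'.1, fun h' => ⟨h', components_of_tate hT, fun r hr =>
    (sat_of_tate h hT hr).1⟩⟩, ⟨fun h' => h'.1, fun h' => ⟨h', components_of_tate hT, fun r hr =>
    (sat_of_tate h hT hr).2.1⟩⟩⟩

end Pool.Agent.Results.MP_d6e134_ag.DirectFactorsAllCK
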