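import Pool.Agent.N567.MD.MainB

/-!
# Murre's conjecture (B) and finite-dimensionality

Let `𝒱` be a class of smooth projective varieties over a field, closed under products, which satisfy
the standard conjecture of Lefschetz type (and closed under smooth linear sections). Then Kimura's
conjecture for `𝒱` is equivalent to the second half of Murre's conjecture (B) for `𝒱` (together with
the existence of Chow-Kunneth decompositions): `F^(i+1) CH^i(X) = 0` for all `X` in `𝒱` and all the
Chow-Kunneth decompositions of `X`. The second half of (B) follows from the first half,
`F^0 CH^i(X) = CH^i(X)`.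

If `𝒱` is the class of all the varieties which have Chow-Kunneth decompositions, then the second
half of (B), or all of (B), for all the decompositions of all `X` in `𝒱` is equivalent to
finite-dimensionality together with the same statement for ONE decomposition of each `X`.

The idea of the proof. A phantom (a homologically trivial idempotent self-correspondence) which is a
direct summand of a part of a Chow-Kunneth decomposition can be moved to the part of weight zero,
which acts as zero on the cycles of positive codimension if `F^(i+1) CH^i = 0`. So phantoms act as
zero on the cycles of positive codimension, on all varieties, and hence vanish. The antisymmetrizer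
(symmetrizer) of a large power of the even (odd) part of `X` commutes with the projectors of a
Chow-Kunneth decomposition of the power of `X`, so it is a sum of phantoms of this form, and the
motive of `X` is finite-dimensional. Conversely, if it is, and `𝒱` is a Lefschetz class, the motive
`h^w(X)` is a direct summand of `h^w(Y)`, `dim Y = w`, so that `CH^i(h^w(X)) = 0` for `w < i`.
-/

set_option autoImplicit false

universe u v w

namespace Pool.Agent.Results.MP_d6e134_ag.FiniteDimensionality

open Pool.Agent.H914 Pool.Agent.N164.Prim Pool.Agent.N567.Mid
open Pool.Agent.W492.BB (TheoryData WeilTheoryData)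

/-- Let `𝒱` be a class of varieties, closed under products, with Chow groups `C` and a Weil
cohomology `H`.

* Let `𝒱` be a Lefschetz class. The varieties in `𝒱` have Chow-Kunneth decompositions and satisfy the
  second half of (B) (for all their Chow-Kunneth decompositions and all codimensions) if and only if
  they are finite-dimensional in the sense of Kimura. If they have Chow-Kunneth decompositions and
  satisfy the first half of (B), then they satisfy (B).
* Let all the varieties in `𝒱` have Chow-Kunneth decompositions. They satisfy the second half of (B)
  (respectively, both halves), for all their Chow-Kunneth decompositions, if and only if they are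
  finite-dimensional in the sense of Kimura and each of them has a Chow-Kunneth decomposition which
  satisfies the second half of (B) (respectively, both halves). -/
theorem result {k : Type u} [Field k] {𝒱 : VarClass k} {C : TheoryData.{u, v, 0} 𝒱 ℚ}
    [IsChowTheory C] {K : Type w} [Field K] {H : WeilTheoryData.{u, v, w} C K} [IsWeilTheory H]
    (hg : IsGradedCommutative H) :
    (IsLefschetzClass H →
      (((∀ X : 𝒱.Obj, HasCK H X) ∧ ∀ (X : 𝒱.Obj) (i : ℕ), MurreB1 H X i) ↔
        ∀ X : 𝒱.Obj, IsKimuraFinite C X) ∧
      (((∀ X : 𝒱.Obj, HasCK H X) ∧ ∀ (X : 𝒱.Obj) (i : ℕ), MurreB0 H X i ∧ MurreB1 H X i) ↔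
        (∀ X : 𝒱.Obj, HasCK H X) ∧ ∀ (X : 𝒱.Obj) (i : ℕ), MurreB0 H X i)) ∧
    ((∀ X : 𝒱.Obj, HasCK H X) →
      ((∀ (X : 𝒱.Obj) (i : ℕ), MurreB1 H X i) ↔
        ∀ X : 𝒱.Obj, IsKimuraFinite C X ∧ HasGoodB1 H X) ∧
      ((∀ (X : 𝒱.Obj) (i : ℕ), MurreB0 H X i ∧ MurreB1 H X i) ↔
        ∀ X : 𝒱.Obj, IsKimuraFinite C X ∧ HasGoodB H X)) :=
  mainB inferInstance inferInstance hg

end Pool.Agent.Results.MP_d6e134_ag.FiniteDimensionality
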