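import Pool.Agent.N536.VP.Tri

/-!
# Murre's conjecture (B) for all Chow-Kunneth decompositions of varieties of surface type

`𝒱` is a class of smooth projective geometrically irreducible varieties over the field `k` closed
under products (for the problem: all of them over `ℂ`), `C` the Chow groups with rational
coefficients (in the form of their formal properties, `IsChowProj`), `H` a Weil cohomology theory
(for the problem: Betti cohomology). The variety `X` is of surface type (`dg C X ∈ throughSurfaces C X`, `dg C X` the diagonal) if its
Chow motive is a direct summand of a finite sum of twists of motives of surfaces. These varieties
include surfaces, rationally connected threefolds, varieties fibred over surfaces with cellular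
fibres and all the varieties obtained from them by blow-ups along curves and surfaces.
`SurfaceProperties H` records the classical facts on divisors on products and the Chow-Kunneth
decompositions of surfaces (Murre).

Theorem. For `X` of surface type the following are equivalent:

* all Chow-Kunneth decompositions of `X` satisfy Murre's conjecture (B);
* (C): the filtration is the same for all Chow-Kunneth decompositions;
* (D): `F^1 CH^i(X)` is the group of homologically trivial cycles, for all of them;
* homologically trivial idempotent self-correspondences of `X` act as zero on the Chow groups of `X`.

All hold if the motive of `X` is finite-dimensional in the sense of Kimura.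

Proof. `X` has a Chow-Kunneth decomposition into pieces of pure weight `w`, sums of twists of
pieces of surfaces, and there are no nonzero morphisms from such a piece to one of bigger weight.
Hence two Chow-Kunneth decompositions are conjugate up to phantoms: the parts of the Chow groups in
which the filtrations can differ are those on which phantoms act.
-/

open CategoryTheory AlgebraicGeometry

set_option autoImplicit false

universe u v w

namespace Pool.Agent.Results.MP_d6e134_ag.SurfaceType

open Pool.Agent.H914 Pool.Agent.W492.BB Pool.Agent.W550.Corr Pool.Agent.TH133 Pool.Agent.X308.S
  Pool.Agent.TH829.Kim

/-- Murre's conjecture (B) for all Chow-Kunneth decompositions of a variety `X` of surface type is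
equivalent to (C), to (D), and to the triviality of the action of the phantom idempotents on
`CH^*(X)`; all hold if the motive of `X` is finite-dimensional. -/
theorem result {k : Type u} [Field k] {𝒱 : VarClass k} (C : TheoryData.{u, v, 0} 𝒱 ℚ)
    [IsChowProj C] {K : Type w} [Field K] (H : WeilTheoryData.{u, v, w} C K) [IsWeilProj H]
    (hS : SurfaceProperties H) (X : 𝒱.Obj) (hX : dg C X ∈ throughSurfaces C X) :
    [MurreB0 H X ∧ MurreB1 H X, MurreC H X, MurreD H X, PhantomsActTrivially H X].TFAE ∧
    (IsKimuraFinite C (ratFam C) X → MurreB0 H X ∧ MurreB1 H X) :=
  Pool.Agent.N536.VP.final hS hX

end Pool.Agent.Results.MP_d6e134_ag.SurfaceType
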